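import Pool.Agent.Q3.FracRev.Main

/-!
# The eigenvalue classes of the graph are not closed under conjugates
-/

set_option autoImplicit false

open Finset

namespace Pool.Agent.Q3.FracRev

/-- the orthogonal projection `E_θ` on the `θ`-eigenspace of the adjacency matrix of `G` -/
noncomputable def proj {W : Type} [Fintype W] [DecidableEq W] (G : SimpleGraph W)
    [DecidableRel G.Adj] (θ : ℝ) : EuclideanSpace ℝ W →L[ℝ] EuclideanSpace ℝ W :=
  (Module.End.eigenspace (Matrix.toEuclideanLin (G.adjMatrix ℝ)) θ).starProjection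

/-- the entry `(E_θ)_{a,b}` -/
noncomputable def entry {W : Type} [Fintype W] [DecidableEq W] (G : SimpleGraph W)
    [DecidableRel G.Adj] (θ : ℝ) (a b : W) : ℝ :=
  proj G θ (EuclideanSpace.single b 1) a

/-- `C^+` -/
def Cplus {W : Type} [Fintype W] [DecidableEq W] (G : SimpleGraph W)
    [DecidableRel G.Adj] (a b : W) : Set ℝ := {θ | 0 < entry G θ a b}

/-- `C^-` -/
def Cminus {W : Type} [Fintype W] [DecidableEq W] (G : SimpleGraph W)
    [DecidableRel G.Adj] (a b : W) : Set ℝ := {θ | entry G θ a b < 0}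

/-- `S` is closed under algebraic conjugates -/
def ConjClosed (S : Set ℝ) : Prop :=
  ∀ θ ∈ S, ∀ z : ℂ, Polynomial.aeval z (minpoly ℚ θ) = 0 → ∃ η ∈ S, (η : ℂ) = z

section general
variable {W : Type} [Fintype W] [DecidableEq W] (G : SimpleGraph W) [DecidableRel G.Adj]

theorem proj_eq_zero_of_eigen {θ μ : ℝ} (hne : μ ≠ θ) {v : W → ℝ}
    (h : (G.adjMatrix ℝ).mulVec v = μ • v) : proj G θ (WithLp.toLp 2 v) = 0 := by
  unfold proj
  rw [Submodule.starProjection_apply_eq_zero_iff, Submodule.mem_orthogonal]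
  intro w hw
  rw [Module.End.mem_eigenspace_iff] at hw
  have hw' : (G.adjMatrix ℝ).mulVec w.ofLp = θ • w.ofLp := by
    funext i
    have := congrFun (congrArg WithLp.ofLp hw) i
    simpa [Matrix.toLpLin_apply] using this
  have h1 : w.ofLp ⬝ᵥ (G.adjMatrix ℝ).mulVec v = (G.adjMatrix ℝ).mulVec w.ofLp ⬝ᵥ v := by
    rw [Matrix.dotProduct_mulVec, ← Matrix.mulVec_transpose, SimpleGraph.transpose_adjMatrix]
  rw [h, hw', dotProduct_smul, smul_dotProduct, smul_eq_mul, smul_eq_mul] at h1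
  have h2 : w.ofLp ⬝ᵥ v = 0 := by
    have : (μ - θ) * (w.ofLp ⬝ᵥ v) = 0 := by linear_combination h1
    rcases mul_eq_zero.1 this with h3 | h3
    · exact absurd (sub_eq_zero.1 h3) hne
    · exact h3
  rw [EuclideanSpace.inner_eq_star_dotProduct]
  simpa [dotProduct_comm] using h2

theorem entry_self_eq (θ : ℝ) (a : W) :
    entry G θ a a = ‖proj G θ (EuclideanSpace.single a 1)‖ ^ 2 := by
  unfold entry proj
  set K := Module.End.eigenspace (Matrix.toEuclideanLin (G.adjMatrix ℝ)) θ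
  set x : EuclideanSpace ℝ W := EuclideanSpace.single a (1 : ℝ) with hx
  have h1 : inner ℝ x (K.starProjection x) = K.starProjection x a := by
    rw [hx, EuclideanSpace.inner_single_left]
    simp
  have h2 : inner ℝ (K.starProjection x) (K.starProjection x) = inner ℝ x (K.starProjection x) := by
    have h3 := Submodule.inner_starProjection_left_eq_right K x (K.starProjection x)
    rw [h3, Submodule.starProjection_eq_self_iff.2 (Submodule.starProjection_apply_mem _ _)]
  rw [← h1, ← h2, real_inner_self_eq_norm_sq]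

/-- if `E_θ (λ e_a + e_b) = 0` then `(E_θ)_{a,b} = - λ ‖E_θ e_a‖²` -/
theorem entry_eq (θ l : ℝ) (a b : W)
    (h : proj G θ (l • EuclideanSpace.single a 1 + EuclideanSpace.single b 1) = 0) :
    entry G θ a b = - l * ‖proj G θ (EuclideanSpace.single a 1)‖ ^ 2 := by
  rw [map_add, map_smul] at h
  have h1 : proj G θ (EuclideanSpace.single b 1) =
      - (l • proj G θ (EuclideanSpace.single a 1)) := by
    rw [eq_neg_iff_add_eq_zero, add_comm]; exact h
  rw [← entry_self_eq]
  unfold entry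
  rw [h1]
  simp

end general

theorem ev_proj_zero {l s θ : ℝ} (hl : l * l = l + 1) (hs : s * s = 2)
    (h0 : 4 * l + 4 ≠ θ) (h1 : 4 * l + 4 + 8 * s ≠ θ) (h2 : 4 * l + 4 - 8 * s ≠ θ) :
    proj X θ (l • EuclideanSpace.single (Sum.inl 0) 1 + EuclideanSpace.single (Sum.inl 1) 1) = 0 := by
  have key : ∀ j : ℝ, j * j * j = j → 4 * l + 4 + j * (8 * s) ≠ θ →
      proj X θ (WithLp.toLp 2 (ev l (4 * l + 4 + j * (8 * s)) ∘ cell)) = 0 := fun j hj hne =>
    proj_eq_zero_of_eigen X hne (mulVec_ev hl (cubic hl hs j hj))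
  have k0 := key 0 (by ring) (by rw [zero_mul, add_zero]; exact h0)
  have k1 := key 1 (by ring) (by rw [one_mul]; exact h1)
  have k2 := key (-1) (by ring) (by rw [neg_one_mul, ← sub_eq_add_neg]; exact h2)
  have hdec : (l • EuclideanSpace.single (Sum.inl 0) 1 + EuclideanSpace.single (Sum.inl 1) 1 :
      EuclideanSpace ℝ V) =
      (((4 * l + 4) ^ 2 - 128) / 24576) • WithLp.toLp 2 (ev l (4 * l + 4 + 0 * (8 * s)) ∘ cell) +
      (-(4 * l + 4) * (4 * l + 4 - 8 * s) / 49152) •
        WithLp.toLp 2 (ev l (4 * l + 4 + 1 * (8 * s)) ∘ cell) +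
      (-(4 * l + 4) * (4 * l + 4 + 8 * s) / 49152) •
        WithLp.toLp 2 (ev l (4 * l + 4 + (-1) * (8 * s)) ∘ cell) := by
    have hL : (l • EuclideanSpace.single (Sum.inl 0) 1 + EuclideanSpace.single (Sum.inl 1) 1 :
        EuclideanSpace ℝ V) = WithLp.toLp 2 ((![l, 1, 0, 0, 0, 0] : Fin 6 → ℝ) ∘ cell) := by
      ext v
      rcases v with v | ⟨v, x, y⟩
      · fin_cases v <;> simp [cell]
      · fin_cases v <;> simp [cell]
    rw [hL]
    ext v
    simp only [PiLp.add_apply, PiLp.smul_apply, Function.comp_apply, smul_eq_mul]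
    generalize cell v = c
    fin_cases c
    · simp [ev]
      linear_combination (-(l + l ^ 2) / 6) * hs
    · simp [ev]
      linear_combination (-(1 + l) / 6) * hs
    · simp [ev]
      linear_combination (l / 12 + l ^ 2 / 24 - l ^ 3 / 24) * hs
    · simp [ev]
      linear_combination (l / 24 - l ^ 2 / 24 + 1 / 12) * hs
    · simp [ev]
      linear_combination (-(l + l ^ 2) / 24) * hs
    · simp [ev]
      linear_combination (-(1 + l) / 24) * hs
  rw [hdec, map_add, map_add, map_smul, map_smul, map_smul, k0, k1, k2]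
  simp

/-- the minimal polynomial of `6 + 2 √5` -/
theorem minpoly_eq : minpoly ℚ (6 + 2 * √5 : ℝ) =
    Polynomial.X ^ 2 - Polynomial.C 12 * Polynomial.X + Polynomial.C 16 := by
  symm
  have hq2 : √5 * √5 = (5 : ℝ) := Real.mul_self_sqrt (by norm_num)
  have hdeg : (Polynomial.X ^ 2 - Polynomial.C 12 * Polynomial.X + Polynomial.C 16 :
      Polynomial ℚ).natDegree = 2 := by compute_degree!
  apply minpoly.eq_of_irreducible_of_monic
  · apply Polynomial.irreducible_of_degree_le_three_of_not_isRoot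
    · rw [hdeg]; decide
    · intro r hr
      have h1 : r ^ 2 - 12 * r + 16 = 0 := by
        simpa [Polynomial.IsRoot] using hr
      apply sq_ne (r - 6) 20 (by decide +kernel)
      have h2 : (r - 6) ^ 2 = 20 := by linear_combination h1
      exact_mod_cast h2
  · simp only [map_add, map_sub, map_mul, map_pow, Polynomial.aeval_X, Polynomial.aeval_C,
      eq_ratCast]
    push_cast
    linear_combination 4 * hq2
  · monicity!

theorem classes : ¬ ConjClosed (Cplus X (Sum.inl 0) (Sum.inl 1)) := by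
  intro hcl
  have hs2 : √2 * √2 = (2 : ℝ) := Real.mul_self_sqrt (by norm_num)
  have hq2 : √5 * √5 = (5 : ℝ) := Real.mul_self_sqrt (by norm_num)
  have hs0 : 0 < √(2 : ℝ) := Real.sqrt_pos.2 (by norm_num)
  have hq0 : 0 < √(5 : ℝ) := Real.sqrt_pos.2 (by norm_num)
  have hs1 : 1.4 < √(2 : ℝ) := by nlinarith
  have hs3 : √(2 : ℝ) < 1.5 := by nlinarith
  have hq1 : 2.2 < √(5 : ℝ) := by nlinarith
  have hq3 : √(5 : ℝ) < 2.3 := by nlinarith
  have hl1 : (1 + √5) / 2 * ((1 + √5) / 2) = (1 + √5) / 2 + (1 : ℝ) := by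
    linear_combination (1 / 4 : ℝ) * hq2
  have hl2 : (1 - √5) / 2 * ((1 - √5) / 2) = (1 - √5) / 2 + (1 : ℝ) := by
    linear_combination (1 / 4 : ℝ) * hq2
  have hplus : (6 + 2 * √5 : ℝ) ∈ Cplus X (Sum.inl 0) (Sum.inl 1) := by
    have h := entry_eq X (6 + 2 * √5) ((1 - √5) / 2) (Sum.inl 0) (Sum.inl 1)
      (ev_proj_zero hl2 hs2 (by intro h; nlinarith) (by intro h; nlinarith)
        (by intro h; nlinarith))
    show 0 < entry X _ _ _
    rw [h]
    have hsup : InSupport X (Sum.inl 0) (6 + 2 * √5) := by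
      have h3 := mulVec_ev hl1 (cubic hl1 hs2 0 (by ring))
      have e : 4 * ((1 + √5) / 2) + 4 + 0 * (8 * √2) = (6 + 2 * √5 : ℝ) := by ring
      rw [e] at h3
      refine inSupport_of X _ _ _ h3 ?_
      simp only [Function.comp_apply, cell, ev]
      have h7 : (1 + √5) / 2 * (16 * ((6 + 2 * √5) - 12)) < (0 : ℝ) := by
        apply mul_neg_of_pos_of_neg (by linarith); linarith
      simpa using h7.ne
    have h4 : 0 < ‖proj X (6 + 2 * √5) (EuclideanSpace.single (Sum.inl 0) 1)‖ :=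
      norm_pos_iff.2 hsup
    have h5 : 0 < -((1 - √5) / 2 : ℝ) := by linarith
    positivity
  obtain ⟨η, hη, hηz⟩ := hcl _ hplus ((6 - 2 * √5 : ℝ) : ℂ) (by
    rw [minpoly_eq]
    simp only [map_add, map_sub, map_mul, map_pow, Polynomial.aeval_X, Polynomial.aeval_C,
      eq_ratCast]
    have hq2C : ((√5 : ℝ) : ℂ) * ((√5 : ℝ) : ℂ) = 5 := by exact_mod_cast hq2
    push_cast
    linear_combination 4 * hq2C)
  have hη' : η = 6 - 2 * √5 := by exact_mod_cast hηz
  subst hη'
  have h := entry_eq X (6 - 2 * √5) ((1 + √5) / 2) (Sum.inl 0) (Sum.inl 1)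
    (ev_proj_zero hl1 hs2 (by intro h; nlinarith) (by intro h; nlinarith)
      (by intro h; nlinarith))
  have h1 : 0 < entry X (6 - 2 * √5) (Sum.inl 0) (Sum.inl 1) := hη
  rw [h] at h1
  have h2 : 0 ≤ ‖proj X (6 - 2 * √5) (EuclideanSpace.single (Sum.inl 0) 1)‖ ^ 2 := by positivity
  nlinarith

open Real in
/-- fractional revival: both columns -/
theorem revival_entries : ∃ t : ℝ,
    (∀ c : V, c ≠ Sum.inl 0 → c ≠ Sum.inl 1 →
      NormedSpace.exp ((Complex.I * (t : ℂ)) • X.adjMatrix ℂ) (Sum.inl 0) c = 0 ∧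
      NormedSpace.exp ((Complex.I * (t : ℂ)) • X.adjMatrix ℂ) (Sum.inl 1) c = 0) ∧
    NormedSpace.exp ((Complex.I * (t : ℂ)) • X.adjMatrix ℂ) (Sum.inl 0) (Sum.inl 1) ≠ 0 := by
  set s : ℝ := √2 with hs
  set q : ℝ := √5 with hq
  have hs2 : s * s = 2 := Real.mul_self_sqrt (by norm_num)
  have hq2 : q * q = 5 := Real.mul_self_sqrt (by norm_num)
  have hs0 : 0 < s := Real.sqrt_pos.2 (by norm_num)
  have hq0 : 0 < q := Real.sqrt_pos.2 (by norm_num)
  have hs2C : (s : ℂ) * s = 2 := by exact_mod_cast hs2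
  have hq2C : (q : ℂ) * q = 5 := by exact_mod_cast hq2
  have hs0C : (s : ℂ) ≠ 0 := by exact_mod_cast hs0.ne'
  have hq0C : (q : ℂ) ≠ 0 := by exact_mod_cast hq0.ne'
  set τ : ℝ := 2 * π / (8 * s) with hτ
  set z : ℂ := Complex.I * (τ : ℂ) with hz
  have hz1 : Complex.exp (z * (8 * (s : ℂ))) = 1 := by
    have : z * (8 * (s : ℂ)) = 2 * (π : ℂ) * Complex.I := by
      rw [hz, hτ]
      push_cast
      field_simp
    rw [this, Complex.exp_two_pi_mul_I]
  set l1 : ℂ := (1 + q) / 2 with hl1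
  set l2 : ℂ := (1 - q) / 2 with hl2
  have h1 : l1 * l1 = l1 + 1 := by rw [hl1]; linear_combination (1 / 4 : ℂ) * hq2C
  have h2 : l2 * l2 = l2 + 1 := by rw [hl2]; linear_combination (1 / 4 : ℂ) * hq2C
  have ev1 := evolve h1 hs2C hz1
  have ev2 := evolve h2 hs2C hz1
  set U := NormedSpace.exp (z • X.adjMatrix ℂ) with hU
  set E1 := Complex.exp (z * (4 * l1 + 4)) with hE1
  set E2 := Complex.exp (z * (4 * l2 + 4)) with hE2
  have hsymm : ∀ i j, U i j = U j i := by
    intro i j
    have h3 : U.transpose = U := by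
      rw [hU, ← Matrix.exp_transpose, Matrix.transpose_smul, SimpleGraph.transpose_adjMatrix]
    conv_lhs => rw [← h3]
    rfl
  have hcol : ∀ i j, U i j = (U.mulVec (Pi.single j 1)) i := by
    intro i j
    rw [Matrix.mulVec_single_one]
    rfl
  have hea : (Pi.single (Sum.inl 0) 1 : V → ℂ) = (1 / (q : ℂ)) • yv l1 - (1 / (q : ℂ)) • yv l2 := by
    have : l1 - l2 = q := by rw [hl1, hl2]; ring
    rw [← smul_sub, yv, yv, add_sub_add_right_eq_sub, ← sub_smul, this, smul_smul,
      one_div, inv_mul_cancel₀ hq0C, one_smul]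
  have heb : (Pi.single (Sum.inl 1) 1 : V → ℂ) =
      (l1 / (q : ℂ)) • yv l2 - (l2 / (q : ℂ)) • yv l1 := by
    have : l1 - l2 = q := by rw [hl1, hl2]; ring
    funext v
    simp only [yv, Pi.sub_apply, Pi.smul_apply, Pi.add_apply, smul_eq_mul]
    field_simp
    rw [← this]
    ring
  have hUa : U.mulVec (Pi.single (Sum.inl 0) 1) =
      (1 / (q : ℂ)) • (E1 • yv l1) - (1 / (q : ℂ)) • (E2 • yv l2) := by
    conv_lhs => rw [hea]
    rw [Matrix.mulVec_sub, Matrix.mulVec_smul, Matrix.mulVec_smul, ev1, ev2]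
  have hUb : U.mulVec (Pi.single (Sum.inl 1) 1) =
      (l1 / (q : ℂ)) • (E2 • yv l2) - (l2 / (q : ℂ)) • (E1 • yv l1) := by
    conv_lhs => rw [heb]
    rw [Matrix.mulVec_sub, Matrix.mulVec_smul, Matrix.mulVec_smul, ev1, ev2]
  refine ⟨τ, ?_, ?_⟩
  · intro c hc0 hc1
    have hy : ∀ l, yv l c = 0 := by
      intro l
      simp [yv, hc0, hc1]
    constructor
    · show U (Sum.inl 0) c = 0
      rw [hsymm, hcol, hUa]
      simp [hy]
    · show U (Sum.inl 1) c = 0
      rw [hsymm, hcol, hUb]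
      simp [hy]
  · show U (Sum.inl 0) (Sum.inl 1) ≠ 0
    rw [hsymm, hcol, hUa]
    have hyb : ∀ l, yv l (Sum.inl 1) = 1 := by
      intro l
      simp [yv]
    simp only [Pi.sub_apply, Pi.smul_apply, smul_eq_mul, hyb]
    intro h
    have h' : E1 - E2 = 0 := by
      field_simp at h
      linear_combination h
    have h3 : Complex.exp (z * (4 * l1 + 4) - z * (4 * l2 + 4)) = 1 := by
      rw [Complex.exp_sub, ← hE1, ← hE2, sub_eq_zero.1 h', div_self]
      rw [hE2]; exact Complex.exp_ne_zero _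
    obtain ⟨n, hn⟩ := Complex.exp_eq_one_iff.1 h3
    have h4 : (q : ℂ) = 2 * n * s := by
      have h5 : z * (4 * l1 + 4) - z * (4 * l2 + 4) = Complex.I * (τ : ℂ) * (4 * q) := by
        rw [hz, hl1, hl2]; ring
      rw [h5, hτ] at hn
      push_cast at hn
      have hpi : (π : ℂ) ≠ 0 := by exact_mod_cast Real.pi_ne_zero
      have hI := Complex.I_ne_zero
      field_simp at hn
      linear_combination (1 / 4 : ℂ) * hn
    have h6 : q = 2 * n * s := by exact_mod_cast h4
    have h7 : (5 : ℝ) = 8 * n ^ 2 := by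
      rw [← hq2, h6]
      linear_combination (4 * (n : ℝ) ^ 2) * hs2
    have h8 : (5 : ℤ) = 8 * n ^ 2 := by exact_mod_cast h7
    omega

end Pool.Agent.Q3.FracRev
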