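import Mathlib

/-!
# A graph with proper fractional revival and support eigenvalues of degree four
-/

set_option autoImplicit false

open Finset

namespace Pool.Agent.Q3.FracRev

/-- the vertices: `a = inl 0`, `b = inl 1` and four classes of sixteen vertices -/
abbrev V : Type := Fin 2 ⊕ (Fin 4 × Fin 4 × Fin 4)

/-- adjacency (as a Boolean): `a` is adjacent to the class `0`, `b` to the class `1`; inside the
classes `0`, `2`, `3`, and between the classes `0` and `1`, two vertices are adjacent if their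
second coordinates differ; between `0` and `2`, and between `1` and `3`, if these agree -/
def adjB : V → V → Bool
  | .inl 0, .inr (0, _, _) => true
  | .inr (0, _, _), .inl 0 => true
  | .inl 1, .inr (1, _, _) => true
  | .inr (1, _, _), .inl 1 => true
  | .inr (0, x, _), .inr (0, y, _) => x != y
  | .inr (2, x, _), .inr (2, y, _) => x != y
  | .inr (3, x, _), .inr (3, y, _) => x != y
  | .inr (0, x, _), .inr (1, y, _) => x != y
  | .inr (1, x, _), .inr (0, y, _) => x != y
  | .inr (0, x, _), .inr (2, y, _) => x == y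
  | .inr (2, x, _), .inr (0, y, _) => x == y
  | .inr (1, x, _), .inr (3, y, _) => x == y
  | .inr (3, x, _), .inr (1, y, _) => x == y
  | _, _ => false

/-- the graph -/
def X : SimpleGraph V where
  Adj v w := adjB v w = true
  symm := ⟨by decide +kernel⟩
  loopless := ⟨by decide +kernel⟩

instance : DecidableRel X.Adj := fun v w => inferInstanceAs (Decidable (adjB v w = true))

/-- the cell of a vertex -/
def cell : V → Fin 6
  | .inl 0 => 0
  | .inl 1 => 1
  | .inr (0, _, _) => 2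
  | .inr (1, _, _) => 3
  | .inr (2, _, _) => 4
  | .inr (3, _, _) => 5

/-- the quotient matrix -/
def B : Fin 6 → Fin 6 → ℕ :=
  ![![0, 0, 16, 0, 0, 0], ![0, 0, 0, 16, 0, 0], ![1, 0, 12, 12, 4, 0], ![0, 1, 12, 0, 0, 4],
    ![0, 0, 4, 0, 12, 0], ![0, 0, 0, 4, 0, 12]]

theorem count : ∀ v : V, ∀ c : Fin 6,
    (univ.filter (fun w : V => adjB v w = true ∧ cell w = c)).card = B (cell v) c := by
  decide +kernel

open Matrix in
theorem mulVec_lift {K : Type*} [CommRing K] (f : Fin 6 → K) :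
    (X.adjMatrix K) *ᵥ (f ∘ cell) = (fun c => ∑ d, (B c d : K) * f d) ∘ cell := by
  classical
  funext v
  have h1 : ((X.adjMatrix K) *ᵥ (f ∘ cell)) v =
      ∑ w : V, ∑ d : Fin 6, (if adjB v w = true ∧ cell w = d then f d else 0) := by
    simp only [Matrix.mulVec, dotProduct, SimpleGraph.adjMatrix_apply, Function.comp_apply]
    apply Finset.sum_congr rfl
    intro w _
    have h2 : X.Adj v w ↔ adjB v w = true := Iff.rfl
    by_cases h : adjB v w = true
    · simp [h2, h]
    · simp [h2, h]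
  rw [h1, Finset.sum_comm]
  simp only [Function.comp_apply]
  apply Finset.sum_congr rfl
  intro d _
  rw [← Finset.sum_filter, Finset.sum_const, count, nsmul_eq_mul]

/-- the eigenvector on the cells -/
def ev {K : Type*} [CommRing K] (l t : K) : Fin 6 → K :=
  ![l * (16 * (t - 12)), 16 * (t - 12), l * (t * (t - 12)), t * (t - 12), l * (4 * t), 4 * t]

open Matrix in
theorem mulVec_ev {K : Type*} [CommRing K] {l t : K} (hl : l * l = l + 1)
    (ht : t ^ 3 - 12 * (l + 1) * t ^ 2 + (144 * l - 32) * t + 192 = 0) :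
    (X.adjMatrix K) *ᵥ (ev l t ∘ cell) = t • (ev l t ∘ cell) := by
  rw [mulVec_lift]
  funext v
  simp only [Function.comp_apply, Pi.smul_apply, smul_eq_mul]
  generalize cell v = c
  fin_cases c
  · simp [Fin.sum_univ_six, B, ev]; ring
  · simp [Fin.sum_univ_six, B, ev]; ring
  · simp [Fin.sum_univ_six, B, ev]
    linear_combination (-l) * ht - 12 * t * (t - 12) * hl
  · simp [Fin.sum_univ_six, B, ev]
    linear_combination (-1) * ht
  · simp [Fin.sum_univ_six, B, ev]; ring
  · simp [Fin.sum_univ_six, B, ev]; ring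

/-! ### matrix exponentials -/

theorem pow_mulVec_of_eigen {V : Type*} [Fintype V] [DecidableEq V] (M : Matrix V V ℂ)
    (v : V → ℂ) (μ : ℂ) (h : M.mulVec v = μ • v) (n : ℕ) :
    (M ^ n).mulVec v = μ ^ n • v := by
  induction n with
  | zero => simp
  | succ n ih =>
    rw [pow_succ, ← Matrix.mulVec_mulVec, h, Matrix.mulVec_smul, ih, smul_smul, pow_succ]
    congr 1
    ring

theorem exp_mulVec_of_eigen {V : Type*} [Fintype V] [DecidableEq V] (M : Matrix V V ℂ)
    (v : V → ℂ) (μ : ℂ) (h : M.mulVec v = μ • v) :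
    (NormedSpace.exp M).mulVec v = Complex.exp μ • v := by
  open scoped Matrix.Norms.Operator in
  have h1 : HasSum (fun n : ℕ => ((n.factorial : ℂ)⁻¹) • M ^ n) (NormedSpace.exp M) :=
    NormedSpace.exp_series_hasSum_exp' M
  have h2 : HasSum (fun n : ℕ => ((n.factorial : ℂ)⁻¹) • μ ^ n) (Complex.exp μ) := by
    have := NormedSpace.exp_series_hasSum_exp' (𝕂 := ℂ) μ
    rwa [← Complex.exp_eq_exp_ℂ] at this
  funext x
  have hx : ∀ N : Matrix V V ℂ, N.mulVec v x = ∑ y, N x y * v y := fun N => rfl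
  have h3 : HasSum (fun n : ℕ => (((n.factorial : ℂ)⁻¹) • M ^ n).mulVec v x)
      ((NormedSpace.exp M).mulVec v x) := by
    simp only [hx]
    refine hasSum_sum fun y _ => ?_
    refine HasSum.mul_right (v y) ?_
    have := h1.map (f := fun n : ℕ => ((n.factorial : ℂ)⁻¹) • M ^ n)
      (⟨⟨fun N : Matrix V V ℂ => N x y, rfl⟩, fun _ _ => rfl⟩ : Matrix V V ℂ →+ ℂ)
      (by exact (continuous_apply y).comp (continuous_apply x))
    exact this
  have h4 : HasSum (fun n : ℕ => (((n.factorial : ℂ)⁻¹) • M ^ n).mulVec v x)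
      ((Complex.exp μ • v) x) := by
    have h5 := h2.mul_right (v x)
    have h6 : (fun n : ℕ => (((n.factorial : ℂ)⁻¹) • M ^ n).mulVec v x) =
        fun n : ℕ => ((n.factorial : ℂ)⁻¹) • μ ^ n * v x := by
      funext n
      rw [Matrix.smul_mulVec, pow_mulVec_of_eigen M v μ h n]
      simp only [Pi.smul_apply, smul_eq_mul]
      ring
    rw [h6]
    exact h5
  exact h3.unique h4

/-! ### the evolution -/

/-- the eigenvalues: `4 λ + 4 + j 8 √2` -/
theorem cubic {K : Type*} [CommRing K] {l s : K} (hl : l * l = l + 1) (hs : s * s = 2) (j : K)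
    (hj : j * j * j = j) :
    (4 * l + 4 + j * (8 * s)) ^ 3 - 12 * (l + 1) * (4 * l + 4 + j * (8 * s)) ^ 2 +
      (144 * l - 32) * (4 * l + 4 + j * (8 * s)) + 192 = 0 := by
  linear_combination (64 * (l + 4) - 48 * (4 * l + 4 + j * (8 * s))) * hl +
    512 * j ^ 3 * s * hs + 1024 * s * hj

/-- `λ e_a + e_b` -/
noncomputable def yv (l : ℂ) : V → ℂ := l • Pi.single (Sum.inl 0) 1 + Pi.single (Sum.inl 1) 1

theorem yv_eq (l : ℂ) : yv l = (![l, 1, 0, 0, 0, 0] : Fin 6 → ℂ) ∘ cell := by
  funext v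
  rcases v with v | ⟨v, x, y⟩
  · fin_cases v
    · simp [yv, cell]
    · simp [yv, cell]
  · fin_cases v <;> simp [yv, cell]

theorem yv_decomp (l s : ℂ) (hs : s * s = 2) :
    yv l = (((4 * l + 4) ^ 2 - 128) / 24576) • (ev l (4 * l + 4 + 0 * (8 * s)) ∘ cell) +
      (-(4 * l + 4) * (4 * l + 4 - 8 * s) / 49152) • (ev l (4 * l + 4 + 1 * (8 * s)) ∘ cell) +
      (-(4 * l + 4) * (4 * l + 4 + 8 * s) / 49152) •
        (ev l (4 * l + 4 + (-1) * (8 * s)) ∘ cell) := by
  rw [yv_eq]
  funext v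
  simp only [Function.comp_apply, Pi.add_apply, Pi.smul_apply, smul_eq_mul]
  generalize cell v = c
  fin_cases c
  · simp [ev]
    linear_combination (-(l + l ^ 2) / 6) * hs
  · simp [ev]
    linear_combination (-(1 + l) / 6) * hs
  · simp [ev]
    linear_combination (l / 12 + l ^ 2 / 24 - l ^ 3 / 24) * hs
  · simp [ev]
    linear_combination (l / 24 - l ^ 2 / 24 + 1 / 12) * hs
  · simp [ev]
    linear_combination (-(l + l ^ 2) / 24) * hs
  · simp [ev]
    linear_combination (-(1 + l) / 24) * hs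

open Matrix in
theorem evolve {l s z : ℂ} (hl : l * l = l + 1) (hs : s * s = 2)
    (hz : Complex.exp (z * (8 * s)) = 1) :
    (NormedSpace.exp (z • X.adjMatrix ℂ)) *ᵥ yv l = Complex.exp (z * (4 * l + 4)) • yv l := by
  have hev : ∀ j : ℂ, j * j * j = j →
      (NormedSpace.exp (z • X.adjMatrix ℂ)) *ᵥ (ev l (4 * l + 4 + j * (8 * s)) ∘ cell) =
        Complex.exp (z * (4 * l + 4 + j * (8 * s))) • (ev l (4 * l + 4 + j * (8 * s)) ∘ cell) := by
    intro j hj
    apply exp_mulVec_of_eigen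
    rw [Matrix.smul_mulVec, mulVec_ev hl (cubic hl hs j hj), smul_smul]
  have e0 : Complex.exp (z * (4 * l + 4 + 0 * (8 * s))) = Complex.exp (z * (4 * l + 4)) := by
    congr 1; ring
  have e1 : Complex.exp (z * (4 * l + 4 + 1 * (8 * s))) = Complex.exp (z * (4 * l + 4)) := by
    rw [show z * (4 * l + 4 + 1 * (8 * s)) = z * (4 * l + 4) + z * (8 * s) by ring,
      Complex.exp_add, hz, mul_one]
  have e2 : Complex.exp (z * (4 * l + 4 + (-1) * (8 * s))) = Complex.exp (z * (4 * l + 4)) := by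
    rw [show z * (4 * l + 4 + (-1) * (8 * s)) = z * (4 * l + 4) - z * (8 * s) by ring,
      Complex.exp_sub, hz, div_one]
  conv_lhs => rw [yv_decomp l s hs]
  rw [Matrix.mulVec_add, Matrix.mulVec_add, Matrix.mulVec_smul, Matrix.mulVec_smul,
    Matrix.mulVec_smul, hev 0 (by ring), hev 1 (by ring), hev (-1) (by ring), e0, e1, e2]
  conv_rhs => rw [yv_decomp l s hs]
  rw [smul_add, smul_add]
  simp only [smul_smul]
  congr 1
  · congr 1
    · congr 1; ring
    · congr 1; ring
  · congr 1; ring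

open Real in
theorem revival : ∃ (τ : ℝ) (α β : ℂ), 0 < τ ∧ α * β ≠ 0 ∧
    (NormedSpace.exp ((Complex.I * (τ : ℂ)) • X.adjMatrix ℂ)).mulVec
      (Pi.single (Sum.inl 0) 1) = α • Pi.single (Sum.inl 0) 1 + β • Pi.single (Sum.inl 1) 1 := by
  set s : ℝ := √2 with hs
  set q : ℝ := √5 with hq
  have hs2 : s * s = 2 := Real.mul_self_sqrt (by norm_num)
  have hq2 : q * q = 5 := Real.mul_self_sqrt (by norm_num)
  have hs0 : 0 < s := Real.sqrt_pos.2 (by norm_num)
  have hq0 : 0 < q := Real.sqrt_pos.2 (by norm_num)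
  have hs2C : (s : ℂ) * s = 2 := by exact_mod_cast hs2
  have hq2C : (q : ℂ) * q = 5 := by exact_mod_cast hq2
  have hs0C : (s : ℂ) ≠ 0 := by exact_mod_cast hs0.ne'
  have hq0C : (q : ℂ) ≠ 0 := by exact_mod_cast hq0.ne'
  set τ : ℝ := 2 * π / (8 * s) with hτ
  have hτ0 : 0 < τ := by positivity
  set z : ℂ := Complex.I * (τ : ℂ) with hz
  have hz1 : Complex.exp (z * (8 * (s : ℂ))) = 1 := by
    have : z * (8 * (s : ℂ)) = 2 * (π : ℂ) * Complex.I := by
      rw [hz, hτ]
      push_cast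
      field_simp
    rw [this, Complex.exp_two_pi_mul_I]
  set l1 : ℂ := (1 + q) / 2 with hl1
  set l2 : ℂ := (1 - q) / 2 with hl2
  have h1 : l1 * l1 = l1 + 1 := by rw [hl1]; linear_combination (1 / 4 : ℂ) * hq2C
  have h2 : l2 * l2 = l2 + 1 := by rw [hl2]; linear_combination (1 / 4 : ℂ) * hq2C
  have ev1 := evolve h1 hs2C hz1
  have ev2 := evolve h2 hs2C hz1
  set E1 := Complex.exp (z * (4 * l1 + 4)) with hE1
  set E2 := Complex.exp (z * (4 * l2 + 4)) with hE2
  have hea : (Pi.single (Sum.inl 0) 1 : V → ℂ) = (1 / (q : ℂ)) • yv l1 - (1 / (q : ℂ)) • yv l2 := by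
    have : l1 - l2 = q := by rw [hl1, hl2]; ring
    rw [← smul_sub, yv, yv, add_sub_add_right_eq_sub, ← sub_smul, this, smul_smul,
      one_div, inv_mul_cancel₀ hq0C, one_smul]
  refine ⟨τ, (l1 * E1 - l2 * E2) / q, (E1 - E2) / q, hτ0, ?_, ?_⟩
  · have hn1 : ‖E1‖ = 1 := by
      rw [hE1, show z * (4 * l1 + 4) = ((τ * (4 * ((1 + q) / 2) + 4) : ℝ) : ℂ) * Complex.I by
        rw [hz, hl1]; push_cast; ring]
      exact Complex.norm_exp_ofReal_mul_I _
    have hn2 : ‖E2‖ = 1 := by
      rw [hE2, show z * (4 * l2 + 4) = ((τ * (4 * ((1 - q) / 2) + 4) : ℝ) : ℂ) * Complex.I by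
        rw [hz, hl2]; push_cast; ring]
      exact Complex.norm_exp_ofReal_mul_I _
    have hq1 : 1 < q := by nlinarith
    have hq3 : q < 3 := by nlinarith
    apply mul_ne_zero
    · apply div_ne_zero _ hq0C
      intro h
      have h3 : ‖l1 * E1‖ = ‖l2 * E2‖ := by rw [sub_eq_zero.1 h]
      rw [norm_mul, norm_mul, hn1, hn2, mul_one, mul_one, hl1, hl2] at h3
      have e1 : ‖((1 : ℂ) + q) / 2‖ = (1 + q) / 2 := by
        rw [show ((1 : ℂ) + q) / 2 = (((1 + q) / 2 : ℝ) : ℂ) by push_cast; ring,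
          Complex.norm_real, Real.norm_eq_abs, abs_of_pos (by linarith)]
      have e2 : ‖((1 : ℂ) - q) / 2‖ = (q - 1) / 2 := by
        rw [show ((1 : ℂ) - q) / 2 = (((1 - q) / 2 : ℝ) : ℂ) by push_cast; ring,
          Complex.norm_real, Real.norm_eq_abs, abs_of_neg (by linarith)]
        ring
      rw [e1, e2] at h3
      linarith
    · apply div_ne_zero _ hq0C
      intro h
      have h3 : Complex.exp (z * (4 * l1 + 4) - z * (4 * l2 + 4)) = 1 := by
        rw [Complex.exp_sub, ← hE1, ← hE2, sub_eq_zero.1 h, div_self]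
        rw [hE2]; exact Complex.exp_ne_zero _
      obtain ⟨n, hn⟩ := Complex.exp_eq_one_iff.1 h3
      have h4 : (q : ℂ) = 2 * n * s := by
        have h5 : z * (4 * l1 + 4) - z * (4 * l2 + 4) = Complex.I * (τ : ℂ) * (4 * q) := by
          rw [hz, hl1, hl2]; ring
        rw [h5, hτ] at hn
        push_cast at hn
        have hpi : (π : ℂ) ≠ 0 := by exact_mod_cast Real.pi_ne_zero
        have hI := Complex.I_ne_zero
        field_simp at hn
        linear_combination (1 / 4 : ℂ) * hn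
      have h6 : q = 2 * n * s := by exact_mod_cast h4
      have h7 : (5 : ℝ) = 8 * n ^ 2 := by
        rw [← hq2, h6]
        linear_combination (4 * (n : ℝ) ^ 2) * hs2
      have h8 : (5 : ℤ) = 8 * n ^ 2 := by exact_mod_cast h7
      omega
  · conv_lhs => rw [hea]
    rw [Matrix.mulVec_sub, Matrix.mulVec_smul, Matrix.mulVec_smul, ev1, ev2]
    funext v
    simp only [yv, Pi.sub_apply, Pi.smul_apply, Pi.add_apply, smul_eq_mul]
    field_simp
    ring

/-! ### the support -/

/-- `θ` is in the eigenvalue support of the vertex `u` of `G`: the orthogonal projection of `e_u`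
on the eigenspace of the adjacency matrix for `θ` is not zero -/
def InSupport {W : Type} [Fintype W] [DecidableEq W] (G : SimpleGraph W) [DecidableRel G.Adj]
    (u : W) (θ : ℝ) : Prop :=
  (Module.End.eigenspace (Matrix.toEuclideanLin (G.adjMatrix ℝ)) θ).starProjection
    (EuclideanSpace.single u 1) ≠ 0

theorem inSupport_of {W : Type} [Fintype W] [DecidableEq W] (G : SimpleGraph W)
    [DecidableRel G.Adj] (u : W) (θ : ℝ) (v : W → ℝ)
    (h : (G.adjMatrix ℝ).mulVec v = θ • v) (hu : v u ≠ 0) : InSupport G u θ := by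
  intro h0
  have h1 := (Submodule.starProjection_apply_eq_zero_iff _).1 h0
  have h2 : WithLp.toLp 2 v ∈
      Module.End.eigenspace (Matrix.toEuclideanLin (G.adjMatrix ℝ)) θ := by
    rw [Module.End.mem_eigenspace_iff]
    ext i
    have := congrFun h i
    simpa [Matrix.toLpLin_apply] using this
  have h3 := (Submodule.mem_orthogonal _ _).1 h1 _ h2
  rw [EuclideanSpace.inner_single_right] at h3
  simp at h3
  exact hu h3

/-- the eigenvalue `6 + 2 √5 + 8 √2` -/
noncomputable def th : ℝ := 6 + 2 * √5 + 8 * √2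

theorem th_support : InSupport X (Sum.inl 0) th := by
  have hs2 : √2 * √2 = (2 : ℝ) := Real.mul_self_sqrt (by norm_num)
  have hq2 : √5 * √5 = (5 : ℝ) := Real.mul_self_sqrt (by norm_num)
  have hs0 : 0 < √(2 : ℝ) := Real.sqrt_pos.2 (by norm_num)
  have hq0 : 0 < √(5 : ℝ) := Real.sqrt_pos.2 (by norm_num)
  have hl : (1 + √5) / 2 * ((1 + √5) / 2) = (1 + √5) / 2 + (1 : ℝ) := by
    linear_combination (1 / 4 : ℝ) * hq2
  have e : 4 * ((1 + √5) / 2) + 4 + 1 * (8 * √2) = th := by unfold th; ring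
  have h := mulVec_ev hl (cubic hl hs2 1 (by ring))
  rw [e] at h
  refine inSupport_of X _ _ _ h ?_
  have h2 : 1 < √(2 : ℝ) := by nlinarith
  have h5 : 2 < √(5 : ℝ) := by nlinarith
  have : (12 : ℝ) < th := by unfold th; linarith
  simp only [Function.comp_apply, cell, ev]
  have h7 : (0 : ℝ) < (1 + √5) / 2 * (16 * (th - 12)) := by
    apply mul_pos (by linarith); linarith
  simpa using h7.ne'

theorem sq_ne (r : ℚ) (n : ℕ) (hn : ¬ IsSquare n) : (r : ℝ) ^ 2 ≠ n := by
  intro h
  have h1 : r ^ 2 = n := by exact_mod_cast h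
  have h2 : IsSquare (n : ℚ) := ⟨r, by rw [← h1, sq]⟩
  exact hn (Rat.isSquare_natCast_iff.1 h2)

theorem th_indep (a b c : ℚ) (h : (a : ℝ) * th ^ 2 + b * th + c = 0) : a = 0 ∧ b = 0 ∧ c = 0 := by
  have hs2 : √2 ^ 2 = (2 : ℝ) := Real.sq_sqrt (by norm_num)
  have hq2 : √5 ^ 2 = (5 : ℝ) := Real.sq_sqrt (by norm_num)
  set s : ℝ := √2 with hs
  set q : ℝ := √5 with hq
  -- shift by `6`
  obtain ⟨d, hd⟩ : ∃ d : ℚ, d = 148 * a + 36 * a + 6 * b + c := ⟨_, rfl⟩
  obtain ⟨e, he⟩ : ∃ e : ℚ, e = 12 * a + b := ⟨_, rfl⟩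
  have h1 : (a : ℝ) * (32 * (q * s)) + d + e * (2 * q + 8 * s) = 0 := by
    rw [hd, he]
    push_cast
    unfold th at h
    linear_combination h - 4 * (a : ℝ) * hq2 - 64 * (a : ℝ) * hs2
  have h2 : (a : ℝ) ^ 2 * 10240 + d ^ 2 - e ^ 2 * 148 +
      (64 * a * d - 32 * e ^ 2) * (q * s) = 0 := by
    have h3 : ((a : ℝ) * (32 * (q * s)) + d) ^ 2 = (e * (2 * q + 8 * s)) ^ 2 := by
      have : (a : ℝ) * (32 * (q * s)) + d = -(e * (2 * q + 8 * s)) := by linear_combination h1
      rw [this]; ring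
    have h10 : (q * s) ^ 2 = 10 := by rw [mul_pow, hs2, hq2]; norm_num
    linear_combination h3 - 1024 * (a : ℝ) ^ 2 * h10 + 4 * (e : ℝ) ^ 2 * hq2 +
      64 * (e : ℝ) ^ 2 * hs2
  have h4 : 64 * a * d - 32 * e ^ 2 = 0 := by
    by_contra hne
    apply sq_ne (-(a ^ 2 * 10240 + d ^ 2 - e ^ 2 * 148) / (64 * a * d - 32 * e ^ 2)) 10
      (by decide +kernel)
    have hneR : (64 * a * d - 32 * e ^ 2 : ℝ) ≠ 0 := by exact_mod_cast hne
    have h5 : q * s = ((-(a ^ 2 * 10240 + d ^ 2 - e ^ 2 * 148) / (64 * a * d - 32 * e ^ 2) : ℚ) : ℝ) := by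
      push_cast
      rw [eq_div_iff hneR]
      linear_combination h2
    rw [← h5, mul_pow, hs2, hq2]
    norm_num
  have h4R : (64 * a * d - 32 * e ^ 2 : ℝ) = 0 := by exact_mod_cast h4
  have h6 : (d - 40 * a) * (d - 256 * a) = 0 := by
    have h7 : (((d - 40 * a) * (d - 256 * a) : ℚ) : ℝ) = 0 := by
      push_cast
      linear_combination h2 - (q * s + 37 / 8) * h4R
    exact_mod_cast h7
  have key : ∀ n : ℕ, ¬ IsSquare n → e ^ 2 = n * a ^ 2 → a = 0 := by
    intro n hn hen
    by_contra ha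
    apply sq_ne (e / a) n hn
    have h8 : (e / a) ^ 2 = (n : ℚ) := by
      rw [div_pow, hen]
      field_simp
    exact_mod_cast h8
  have ha : a = 0 := by
    rcases mul_eq_zero.1 h6 with h7 | h7
    · exact key 80 (by decide +kernel) (by
        push_cast
        linear_combination (-1 / 32 : ℚ) * h4 + 2 * a * h7)
    · exact key 512 (by decide +kernel) (by
        push_cast
        linear_combination (-1 / 32 : ℚ) * h4 + 2 * a * h7)
  subst ha
  have he0 : e = 0 := by
    have : e ^ 2 = 0 := by linear_combination (-1 / 32 : ℚ) * h4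
    exact pow_eq_zero_iff (by norm_num) |>.1 this
  have hd0 : d = 0 := by
    have : d * d = 0 := by linear_combination h6
    exact mul_self_eq_zero.1 this
  refine ⟨rfl, ?_, ?_⟩
  · linear_combination he0 - he
  · linear_combination hd0 - hd - 6 * (he0 - he)

theorem th_isIntegral : IsIntegral ℚ th := by
  have hs : IsIntegral ℚ (√2 : ℝ) := ⟨Polynomial.X ^ 2 - Polynomial.C 2,
    Polynomial.monic_X_pow_sub_C _ (by norm_num), by simp⟩
  have hq : IsIntegral ℚ (√5 : ℝ) := ⟨Polynomial.X ^ 2 - Polynomial.C 5,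
    Polynomial.monic_X_pow_sub_C _ (by norm_num), by simp⟩
  have h6 : IsIntegral ℚ (6 : ℝ) := by exact_mod_cast isIntegral_algebraMap (R := ℚ) (x := 6)
  have h2 : IsIntegral ℚ (2 : ℝ) := by exact_mod_cast isIntegral_algebraMap (R := ℚ) (x := 2)
  have h8 : IsIntegral ℚ (8 : ℝ) := by exact_mod_cast isIntegral_algebraMap (R := ℚ) (x := 8)
  exact (h6.add (h2.mul hq)).add (h8.mul hs)

theorem th_degree : 3 ≤ (minpoly ℚ th).natDegree := by
  by_contra hcon
  have hdeg : (minpoly ℚ th).natDegree ≤ 2 := by omega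
  have h0 := minpoly.aeval ℚ th
  rw [Polynomial.aeval_eq_sum_range' (n := 3) (by omega)] at h0
  simp only [Finset.sum_range_succ, Finset.sum_range_zero, zero_add, pow_zero, pow_one,
    Algebra.smul_def] at h0
  obtain ⟨h2, h1, h00⟩ := th_indep ((minpoly ℚ th).coeff 2) ((minpoly ℚ th).coeff 1)
    ((minpoly ℚ th).coeff 0) (by
      simp only [eq_ratCast] at h0
      linear_combination h0)
  have hm := minpoly.monic th_isIntegral
  have : (minpoly ℚ th).coeff (minpoly ℚ th).natDegree = 1 := hm.coeff_natDegree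
  interval_cases h : (minpoly ℚ th).natDegree
  · rw [h00] at this; norm_num at this
  · rw [h1] at this; norm_num at this
  · rw [h2] at this; norm_num at this

end Pool.Agent.Q3.FracRev
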